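import Pool.Agent.H6.NB.Targets

set_option autoImplicit false

namespace Pool.Agent.H24.NB.PHB

open Finset Pool.Agent.H6.NB

theorem sg_sq (b : Bool) : sg b * sg b = 1 := by
  cases b <;> simp [sg]

theorem sum_sq (q : ℕ) (y : (Fin q → Bool) → ℝ) :
    ∑ a, (∑ b, hd q a b * y b) ^ 2 = ∑ b, y b ^ 2 := by
  have h1 : ∀ a, (∑ b, hd q a b * y b) ^ 2 =
      ∑ b, ∑ c, (hd q b a * hd q c a) * (y b * y c) := by
    intro a
    rw [sq, Finset.sum_mul_sum]
    refine Finset.sum_congr rfl fun b _ => Finset.sum_congr rfl fun c _ => ?_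
    rw [hd_comm q a b, hd_comm q a c]; ring
  rw [Finset.sum_congr rfl fun a _ => h1 a, Finset.sum_comm]
  refine Finset.sum_congr rfl fun b _ => ?_
  rw [Finset.sum_comm]
  rw [Finset.sum_congr rfl fun c _ => (Finset.sum_mul _ _ _).symm]
  rw [Finset.sum_congr rfl fun c _ => by rw [hd_orth]]
  simp [sq]

theorem t_phb : T_PHB := by
  intro q p
  have h0 : (0 : ℝ) < 2 ^ q := by positivity
  unfold phi
  rw [abs_div, abs_of_pos h0, div_le_one h0]
  have h1 : ∑ a, ∑ b, sg (p (false, a)) * hd q a b * sg (p (true, b)) =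
      ∑ a, sg (p (false, a)) * ∑ b, hd q a b * sg (p (true, b)) := by
    refine Finset.sum_congr rfl fun a _ => ?_
    rw [Finset.mul_sum]
    refine Finset.sum_congr rfl fun b _ => by ring
  rw [h1]
  have h2 := Finset.sum_mul_sq_le_sq_mul_sq (Finset.univ : Finset (Fin q → Bool))
    (fun a => sg (p (false, a))) (fun a => ∑ b, hd q a b * sg (p (true, b)))
  rw [sum_sq] at h2
  have h3 : ∀ x : Bool, sg x ^ 2 = 1 := fun x => by rw [sq, sg_sq]
  simp only [h3, Finset.sum_const, Finset.card_univ, Fintype.card_fun, Fintype.card_bool,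
    Fintype.card_fin, nsmul_eq_mul, mul_one, Nat.cast_pow, Nat.cast_ofNat] at h2
  rw [← sq] at h2
  exact abs_le_of_sq_le_sq h2 h0.le

end Pool.Agent.H24.NB.PHB
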