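import Pool.Agent.H6.NB.Targets

set_option autoImplicit false

namespace Pool.Agent.H24.NB.PHU

open Finset Pool.Agent.H6.NB

theorem sg_sq (b : Bool) : sg b * sg b = 1 := by
  cases b <;> simp [sg]

theorem sg_not (b : Bool) : sg (!b) = - sg b := by
  cases b <;> simp [sg]

/-- Flip one coordinate. -/
def flp {V : Type} [DecidableEq V] (u : V) : (V → Bool) ≃ (V → Bool) where
  toFun p := Function.update p u (!p u)
  invFun p := Function.update p u (!p u)
  left_inv p := by
    funext v
    by_cases h : v = u
    · subst h; simp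
    · simp [h]
  right_inv p := by
    funext v
    by_cases h : v = u
    · subst h; simp
    · simp [h]

theorem flp_self {V : Type} [DecidableEq V] (u : V) (p : V → Bool) : flp u p u = !p u := by
  simp [flp]

theorem flp_ne {V : Type} [DecidableEq V] (u v : V) (h : v ≠ u) (p : V → Bool) :
    flp u p v = p v := by
  simp [flp, h]

theorem sum4 (q : ℕ) (a b a' b' : Fin q → Bool) :
    ∑ p : VV q → Bool, (sg (p (false, a)) * sg (p (true, b))) *
      (sg (p (false, a')) * sg (p (true, b'))) =
      if a = a' then (if b = b' then (2 : ℝ) ^ (2 * 2 ^ q) else 0) else 0 := by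
  by_cases ha : a = a'
  · subst ha
    rw [if_pos rfl]
    by_cases hb : b = b'
    · subst hb
      rw [if_pos rfl]
      have h1 : ∀ p : VV q → Bool, (sg (p (false, a)) * sg (p (true, b))) *
          (sg (p (false, a)) * sg (p (true, b))) = 1 := by
        intro p
        calc _ = (sg (p (false, a)) * sg (p (false, a))) * (sg (p (true, b)) * sg (p (true, b))) := by
              ring
          _ = 1 := by rw [sg_sq, sg_sq, one_mul]
      rw [Finset.sum_congr rfl fun p _ => h1 p]
      simp [Fintype.card_prod]
    · rw [if_neg hb]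
      have h := Equiv.sum_comp (flp ((true, b) : VV q)) (fun p : VV q → Bool =>
        (sg (p (false, a)) * sg (p (true, b))) * (sg (p (false, a)) * sg (p (true, b'))))
      have h1 : ∀ p : VV q → Bool, (sg (flp ((true, b) : VV q) p (false, a)) *
          sg (flp ((true, b) : VV q) p (true, b))) *
          (sg (flp ((true, b) : VV q) p (false, a)) * sg (flp ((true, b) : VV q) p (true, b'))) =
          - ((sg (p (false, a)) * sg (p (true, b))) * (sg (p (false, a)) * sg (p (true, b')))) := by
        intro p
        rw [flp_self, flp_ne _ _ (by simp), flp_ne _ _ (by simpa using fun e => hb e.symm), sg_not]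
        ring
      rw [Finset.sum_congr rfl fun p _ => h1 p, Finset.sum_neg_distrib] at h
      linarith
  · rw [if_neg ha]
    have h := Equiv.sum_comp (flp ((false, a) : VV q)) (fun p : VV q → Bool =>
      (sg (p (false, a)) * sg (p (true, b))) * (sg (p (false, a')) * sg (p (true, b'))))
    have h1 : ∀ p : VV q → Bool, (sg (flp ((false, a) : VV q) p (false, a)) *
        sg (flp ((false, a) : VV q) p (true, b))) *
        (sg (flp ((false, a) : VV q) p (false, a')) * sg (flp ((false, a) : VV q) p (true, b'))) =
        - ((sg (p (false, a)) * sg (p (true, b))) * (sg (p (false, a')) * sg (p (true, b')))) := by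
      intro p
      rw [flp_self, flp_ne _ _ (by simp), flp_ne _ _ (by simpa using fun e => ha e.symm),
        flp_ne _ _ (by simp), sg_not]
      ring
    rw [Finset.sum_congr rfl fun p _ => h1 p, Finset.sum_neg_distrib] at h
    linarith

theorem t_phu : T_PHU := by
  intro q
  have h0 : (0 : ℝ) < 2 ^ q := by positivity
  have h00 : (0 : ℝ) < 2 ^ (2 * 2 ^ q) := by positivity
  have e1 : ∀ p : VV q → Bool, mu false q p * phi q p ^ 2 =
      (1 / 2 ^ (2 * 2 ^ q) / (2 ^ q * 2 ^ q)) * ∑ a, ∑ b, ∑ a', ∑ b', (hd q a b * hd q a' b') *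
        ((sg (p (false, a)) * sg (p (true, b))) * (sg (p (false, a')) * sg (p (true, b')))) := by
    intro p
    have e2 : mu false q p = 1 / 2 ^ (2 * 2 ^ q) := by simp [mu]
    have e3 : (∑ a, ∑ b, sg (p (false, a)) * hd q a b * sg (p (true, b))) *
        (∑ a, ∑ b, sg (p (false, a)) * hd q a b * sg (p (true, b))) =
        ∑ a, ∑ b, ∑ a', ∑ b', (hd q a b * hd q a' b') *
        ((sg (p (false, a)) * sg (p (true, b))) * (sg (p (false, a')) * sg (p (true, b')))) := by
      rw [Finset.sum_mul]
      refine Finset.sum_congr rfl fun a _ => ?_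
      rw [Finset.sum_mul]
      refine Finset.sum_congr rfl fun b _ => ?_
      rw [Finset.mul_sum]
      refine Finset.sum_congr rfl fun a' _ => ?_
      rw [Finset.mul_sum]
      refine Finset.sum_congr rfl fun b' _ => by ring
    rw [e2, phi, div_pow, sq, e3, sq (2 ^ q : ℝ)]
    ring
  rw [Finset.sum_congr rfl fun p _ => e1 p, ← Finset.mul_sum]
  have e4 : ∑ p : VV q → Bool, ∑ a, ∑ b, ∑ a', ∑ b', (hd q a b * hd q a' b') *
        ((sg (p (false, a)) * sg (p (true, b))) * (sg (p (false, a')) * sg (p (true, b')))) =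
      ∑ a, ∑ b, ∑ a', ∑ b', (hd q a b * hd q a' b') *
        (if a = a' then (if b = b' then (2 : ℝ) ^ (2 * 2 ^ q) else 0) else 0) := by
    rw [Finset.sum_comm]
    refine Finset.sum_congr rfl fun a _ => ?_
    rw [Finset.sum_comm]
    refine Finset.sum_congr rfl fun b _ => ?_
    rw [Finset.sum_comm]
    refine Finset.sum_congr rfl fun a' _ => ?_
    rw [Finset.sum_comm]
    refine Finset.sum_congr rfl fun b' _ => ?_
    rw [← Finset.mul_sum, sum4]
  rw [e4]
  have e5 : ∀ a b : Fin q → Bool, ∑ a', ∑ b', (hd q a b * hd q a' b') *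
        (if a = a' then (if b = b' then (2 : ℝ) ^ (2 * 2 ^ q) else 0) else 0) =
        (hd q a b * hd q a b) * 2 ^ (2 * 2 ^ q) := by
    intro a b
    rw [Finset.sum_eq_single a]
    · rw [Finset.sum_eq_single b]
      · simp
      · intro b' _ hb'
        rw [if_pos rfl, if_neg (Ne.symm hb'), mul_zero]
      · simp
    · intro a' _ ha'
      refine Finset.sum_eq_zero fun b' _ => ?_
      rw [if_neg (Ne.symm ha'), mul_zero]
    · simp
  rw [Finset.sum_congr rfl fun a _ => Finset.sum_congr rfl fun b _ => e5 a b]
  have e6 : ∑ a : Fin q → Bool, ∑ b, (hd q a b * hd q a b) * (2 : ℝ) ^ (2 * 2 ^ q) =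
      2 ^ q * 2 ^ (2 * 2 ^ q) := by
    rw [Finset.sum_congr rfl fun a _ => (Finset.sum_mul _ _ _).symm]
    rw [Finset.sum_congr rfl fun a _ => by rw [hd_orth, if_pos rfl, one_mul]]
    simp
  rw [e6]
  field_simp

end Pool.Agent.H24.NB.PHU
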